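import Pool.Agent.W919.CB.Two
import Pool.Agent.W919.CB.Decode
import Pool.Agent.W919.CB.Colour
import Pool.Agent.W919.CB.Meas
import Pool.Agent.W919.CB.Gam
import Pool.Agent.W919.CB.Gam2
import Pool.Agent.W919.CB.Games
import Pool.Agent.W928.CB.T
import Pool.Agent.W928.CB.Star
import Pool.Agent.W928.CB.Class
import Pool.Agent.W374.CB.Norm
import Pool.Agent.W374.CB.Base
import Pool.Agent.W374.CB.Base2

set_option autoImplicit false

/-!
# Convex bi-embeddability of countable linear orders is Borel reducible to isomorphism

Definitions (in `Pool.Agent.W919.CB.Defs`): `LO` is the space of codes of (reflexive) linear orders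
on `ℕ`, a subspace of the Cantor space `ℕ × ℕ → Bool`; `IsoLO` is isomorphism; `BiEmb` is convex
bi-embeddability.

Idea of the proof. If two convexly bi-embeddable orders `L`, `L'` are not isomorphic, then each of
them is isomorphic to a final segment of some `(x, ∞)` (left self-absorbing), or to an initial
segment of some `(-∞, y)`, or to a convex subset of a bounded interval. For such orders the
bi-embeddability type is determined by the set of the isomorphism types of the bounded intervals
(half lines, respectively); otherwise by the isomorphism type of `L`. The alternative is not a
Borel one (it is `Σ¹₁`), so it can not be decided by the reduction. Instead, the reduction produces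
a transition system on a countable set whose bisimilarity type hides the isomorphism type of `L`
behind the ranks of certain games (`GamA`, `GamB`, `GamD`, `GamL`), built from the back-and-forth
ranks of the intervals of `L`: if `L` absorbs itself, Duplicator wins the game, both games of a
pair have the same ranks at all ordinals and the isomorphism type is hidden; if `L` does not, the
ranks are different and the isomorphism type can be read off. The ranks themselves are invariants
of convex bi-embeddability. Bisimilarity of countable transition systems is reduced to isomorphism
of linear orders by Cantor's theorem with colours.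
-/

namespace Pool.Agent.Results.MP_387a72_lc.BorelReduction

open Pool.Agent.W919.CB

/-- all parts of the proof -/
theorem hyps : Hyps where
  efinv := Pool.Agent.W928.CB.t_efinv
  efiso := Pool.Agent.W928.CB.t_efiso
  T := Pool.Agent.W928.CB.t_T'
  starL := Pool.Agent.W928.CB.t_starL'
  starD := Pool.Agent.W928.CB.t_starD'
  cls := Pool.Agent.W928.CB.t_class
  gaminv := t_gaminv Pool.Agent.W928.CB.t_efinv Pool.Agent.W928.CB.t_efiso
  gamSA := t_gamSA Pool.Agent.W928.CB.t_efinv Pool.Agent.W928.CB.t_efiso
  gamstar := t_gamstar Pool.Agent.W928.CB.t_efcount
  gamrev := t_gamrev
  three := t_three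
  threesame := t_threesame
  normB := Pool.Agent.W374.CBN.t_normB
  normN := Pool.Agent.W374.CBN.t_normN
  good := Pool.Agent.W374.CBN.t_basegood
  same := Pool.Agent.W374.CBN.t_basesame Pool.Agent.W928.CB.t_efinv
  gamK := Pool.Agent.W374.CBN.t_gamK

/-- There is a Borel map `h : LO → LO` such that `x` and `y` are convexly bi-embeddable if and only
if `h x` and `h y` are isomorphic. -/
theorem result : ∃ h : LO → LO, @Measurable LO LO (borel LO) (borel LO) h ∧
    ∀ x y : LO, BiEmb x y ↔ IsoLO (h x) (h y) := by
  obtain ⟨h, hm, hh⟩ := reduction hyps t_meas (t_coding t_colour t_decode t_tree)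
  refine ⟨h, ?_, hh⟩
  rw [← BorelSpace.measurable_eq (α := LO)]
  exact hm

end Pool.Agent.Results.MP_387a72_lc.BorelReduction
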